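import Pool.Agent.R489.HB.Stm

/-! Piece MVEC of the project HB (helper415). -/

set_option autoImplicit false

namespace Pool.Agent.R415.HB

open Finset Pool.Agent.R489.HB

theorem vec_pair {W : Type} [DecidableEq W] (T : Finset W) (a : W → Fin 3) (i : Fin 3)
    (p q z : W) : vec T a i {p, q} z =
      if (z = p ∨ z = q) ∧ z ∉ T ∧ ((a p ≠ i ∧ a q ≠ i) ∨ (a z = i ∧ (a p ≠ i ∨ a q ≠ i)))
      then 1 else 0 := by
  unfold vec
  have h : (z ∈ ({p, q} : Finset W) ∧ z ∉ T ∧ ((∀ y ∈ ({p, q} : Finset W), a y ≠ i) ∨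
      (a z = i ∧ ∃ y ∈ ({p, q} : Finset W), a y ≠ i))) ↔
      ((z = p ∨ z = q) ∧ z ∉ T ∧ ((a p ≠ i ∧ a q ≠ i) ∨ (a z = i ∧ (a p ≠ i ∨ a q ≠ i)))) := by
    simp only [mem_insert, mem_singleton, forall_eq_or_imp, forall_eq, exists_eq_or_imp,
      exists_eq_left]
  exact if_congr h rfl rfl

theorem MVEC : S_MVEC := by
  intro W _ T a u v x i huv hv ha hxu hxv
  refine ⟨fun hi => ?_, fun hi => ?_, fun hi hu hx => ?_⟩
  · funext z
    rw [vec_pair, kap]
    have h1 : a u ≠ i := fun h => hi h.symm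
    have h2 : a v ≠ i := ha ▸ h1
    apply if_congr _ rfl rfl
    constructor
    · rintro ⟨h3, h4, -⟩; exact ⟨h4, h3⟩
    · rintro ⟨h3, h4⟩; exact ⟨h4, h3, Or.inl ⟨h1, h2⟩⟩
  · funext z
    rw [Pi.add_apply, vec_pair, vec_pair, kap]
    have hx : a x ≠ i := fun h => hi h.symm
    by_cases hzT : z ∈ T
    · simp [hzT]
    by_cases hzu : z = u
    · subst hzu
      have h3 : z ≠ x := hxu.symm
      by_cases h4 : a z = i
      · simp [hzT, h4, hx, huv, h3]
      · simp [hzT, h4, hx, huv, h3]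
    by_cases hzv : z = v
    · subst hzv
      have h3 : z ≠ x := hxv.symm
      by_cases h4 : a z = i
      · simp [hzT, h4, hx, hzu, h3]
      · simp [hzT, h4, hx, hzu, h3]
    by_cases hzx : z = x
    · subst hzx
      by_cases h4 : a u = i
      · have h5 : a v = i := ha ▸ h4
        simp [hzT, h4, h5, hx, hxu, hxv]
      · have h5 : a v ≠ i := ha ▸ h4
        simp only [hzT, hxu, hxv, h4, h5, hx, not_false_eq_true, and_self, or_true, true_and,
          ne_eq, true_or, if_true, or_self, and_false, if_false]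
        decide
    · simp [hzu, hzv, hzx]
  · funext z
    rw [vec_pair, kap]
    have h1 : a x ≠ i := fun h => hi h.symm
    apply if_congr _ rfl rfl
    constructor
    · rintro ⟨h3, h4, -⟩
      rcases h3 with rfl | rfl
      · exact ⟨h4, Or.inr rfl⟩
      · exact absurd hx h4
    · rintro ⟨h3, h4⟩
      rcases h4 with rfl | rfl
      · exact absurd hu h3
      · refine ⟨Or.inl rfl, h3, ?_⟩
        by_cases h5 : a z = i
        · exact Or.inr ⟨h5, Or.inr h1⟩
        · exact Or.inl ⟨h5, h1⟩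

end Pool.Agent.R415.HB
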